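import Mathlib
import Pool.Agent.N633.PA.Space

/-!
# Property (A) does not imply unconditionality

There is a Banach space (real or complex) with a semi-normalized Markushevich basis, in fact a
Schauder basis, which has Property (A) and is not unconditional.
-/

open Finset Filter Topology

namespace Pool.Agent.Results.MP_e9a5f2_an.ConditionalPropertyA

/-- A semi-normalized Markushevich basis `(vec n)` of `X` with biorthogonal functionals
`(coord n)`: the span of the vectors is dense, the functionals separate points, and both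
sequences are norm bounded. -/
structure MBasis (𝕜 X : Type) [RCLike 𝕜] [NormedAddCommGroup X] [NormedSpace 𝕜 X] where
  /-- the basis vectors -/
  vec : ℕ → X
  /-- the biorthogonal functionals -/
  coord : ℕ → X →L[𝕜] 𝕜
  biorthogonal : ∀ n j, coord n (vec j) = if n = j then 1 else 0
  spans : closure (Submodule.span 𝕜 (Set.range vec) : Set X) = Set.univ
  separates : ∀ x, (∀ n, coord n x = 0) → x = 0
  seminormalized : ∃ C : ℝ, ∀ n, ‖vec n‖ ≤ C ∧ ‖coord n‖ ≤ C

variable {𝕜 X : Type} [RCLike 𝕜] [NormedAddCommGroup X] [NormedSpace 𝕜 X]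

/-- Property (A) (symmetry for largest coefficients). -/
def PropertyA (b : MBasis 𝕜 X) : Prop :=
  ∀ (x : X) (A B : Finset ℕ) (ε η : ℕ → 𝕜),
    (∀ n, b.coord n x ≠ 0 → ‖b.coord n x‖ ≤ 1) →
    A.card = B.card → Disjoint A B →
    (∀ n ∈ A ∪ B, b.coord n x = 0) →
    (∀ n ∈ A, ‖ε n‖ = 1) → (∀ n ∈ B, ‖η n‖ = 1) →
    ‖x + ∑ n ∈ A, ε n • b.vec n‖ = ‖x + ∑ n ∈ B, η n • b.vec n‖

/-- The expansion of every `x` converges unconditionally to `x`
(`HasSum` is convergence along the directed set of all finite subsets of `ℕ`). -/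
def Unconditional (b : MBasis 𝕜 X) : Prop :=
  ∀ x : X, HasSum (fun n => b.coord n x • b.vec n) x

/-- The partial sums of the expansion of every `x` converge to `x`. -/
def Schauder (b : MBasis 𝕜 X) : Prop :=
  ∀ x : X, Tendsto (fun N => ∑ n ∈ range N, b.coord n x • b.vec n) atTop (𝓝 x)

/-- Over the real as well as over the complex field there is a Banach space with a
semi-normalized Markushevich basis which has Property (A) and is a Schauder basis, but which is
not unconditional. -/
theorem result (𝕜 : Type) [RCLike 𝕜] :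
    ∃ (X : Type) (_ : NormedAddCommGroup X) (_ : NormedSpace 𝕜 X) (_ : CompleteSpace X)
      (b : MBasis 𝕜 X), PropertyA b ∧ Schauder b ∧ ¬ Unconditional b := by
  obtain ⟨X, i1, i2, i3, vec, coord, H, hv, hc⟩ := Pool.Agent.N633.PA.exists_space 𝕜
  refine ⟨X, i1, i2, i3, ⟨vec, coord, H.biorth, ?_, H.total, 1, fun n => ⟨(hv n).le, hc n⟩⟩,
    ?_, ?_, ?_⟩
  · have h := H.dense
    have h2 : closure (Submodule.span 𝕜 (Set.range vec) : Set X)
        = ((Submodule.span 𝕜 (Set.range vec)).topologicalClosure : Set X) := rfl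
    rw [h2, h]; rfl
  · intro x A B ε η h1 h2 h3 h4 h5 h6
    refine H.propA x A B ε η (fun n => ?_) h2 h3 h4 h5 h6
    by_cases h0 : coord n x = 0
    · rw [h0]; simp
    · exact h1 n h0
  · intro x
    exact H.schauder x
  · intro hU
    obtain ⟨x, hx⟩ := H.not_unconditional
    exact hx (hU x)

end Pool.Agent.Results.MP_e9a5f2_an.ConditionalPropertyA
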